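import Pool.Agent.Run7.h453.CX.Gen

/-! The rotated law for Euler products with complex coefficients at an arbitrary real point. -/

set_option autoImplicit false

namespace Pool.Agent.Run7.h453.CX

open Complex MeasureTheory Filter Topology Set
open Pool.Agent.W189.ML Pool.Agent.W187.UR
open Pool.Agent.N41.RM (order_sh coeff_sh)

variable {P : Type}

/-- Euler product data: `|t(v, k)| ≤ N q_v^(κ k)` -/
structure ED (κ : ℝ) (N : ℕ) (q : P → ℝ) (t : P → ℕ+ → ℂ) : Prop where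
  two_le : ∀ v, 2 ≤ q v
  sum : ∀ σ : ℝ, 1 < σ → Summable fun v => q v ^ (-σ)
  bound : ∀ v k, ‖t v k‖ ≤ N * q v ^ (κ * (k : ℕ))

variable {κ : ℝ} {N : ℕ} {q : P → ℝ} {t : P → ℕ+ → ℂ}

/-- the frequencies -/
noncomputable def lamE (q : P → ℝ) (x : P × ℕ+) : ℝ := (x.2 : ℕ) * Real.log (q x.1)

/-- the coefficients -/
noncomputable def cE (t : P → ℕ+ → ℂ) (x : P × ℕ+) : ℂ := t x.1 x.2 / (x.2 : ℕ)

/-- the coefficients at `σ₀` -/
noncomputable def cEs (q : P → ℝ) (t : P → ℕ+ → ℂ) (σ₀ : ℝ) (x : P × ℕ+) : ℂ :=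
  cE t x * Real.exp (-(σ₀ * lamE q x))

theorem ED.pos (E : ED κ N q t) (v : P) : 0 < q v := by linarith [E.two_le v]

theorem ED.lam_nonneg (E : ED κ N q t) (x : P × ℕ+) : 0 ≤ lamE q x := by
  unfold lamE
  have := Real.log_nonneg (by linarith [E.two_le x.1] : 1 ≤ q x.1)
  positivity

theorem ED.summable (E : ED κ N q t) {σ : ℝ} (hσ : 1 + κ < σ) :
    Summable fun x => ‖cE t x‖ * Real.exp (-(σ * lamE q x)) := by
  have hg : Summable fun n : ℕ+ => (1 / 2 : ℝ) ^ ((n : ℕ) - 1) := by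
    have h2 : Summable (fun n : ℕ => ((1 / 2 : ℝ)) ^ n) :=
      summable_geometric_of_lt_one (by norm_num) (by norm_num)
    have h3 : Function.Injective (fun n : ℕ+ => ((n : ℕ) - 1)) := by
      intro a b hab
      apply PNat.eq
      have := a.pos
      have := b.pos
      simp only at hab
      omega
    exact h2.comp_injective h3
  have h1 := ((E.sum (σ - κ) (by linarith)).mul_left (N : ℝ)).mul_of_nonneg hg
    (fun v => by
      have := E.pos v
      show 0 ≤ (N : ℝ) * q v ^ (-(σ - κ))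
      positivity) (fun n => by positivity)
  refine Summable.of_nonneg_of_le (fun x => by positivity) (fun x => ?_) h1
  obtain ⟨v, k⟩ := x
  have hq := E.pos v
  have hk : (1 : ℝ) ≤ (k : ℕ) := by exact_mod_cast k.pos
  have hk1 : (((k : ℕ) - 1 : ℕ) : ℝ) = (k : ℕ) - 1 := by
    rw [Nat.cast_sub k.pos, Nat.cast_one]
  have he : Real.exp (-(σ * lamE q (v, k))) = q v ^ (-(σ * (k : ℕ))) := by
    rw [Real.rpow_def_of_pos hq]
    unfold lamE
    congr 1
    ring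
  have hc : ‖cE t (v, k)‖ ≤ N * q v ^ (κ * (k : ℕ)) := by
    unfold cE
    rw [norm_div, Complex.norm_natCast]
    exact (div_le_self (norm_nonneg _) hk).trans (E.bound v k)
  have hstep : q v ^ (κ * (k : ℕ)) * q v ^ (-(σ * (k : ℕ))) =
      q v ^ (-(σ - κ)) * q v ^ (-((σ - κ) * (((k : ℕ) - 1 : ℕ) : ℝ))) := by
    rw [← Real.rpow_add hq, ← Real.rpow_add hq, hk1]
    congr 1
    ring
  have hhalf : q v ^ (-((σ - κ) * (((k : ℕ) - 1 : ℕ) : ℝ))) ≤ (1 / 2) ^ ((k : ℕ) - 1) := by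
    have h0 : (0 : ℝ) ≤ (((k : ℕ) - 1 : ℕ) : ℝ) := Nat.cast_nonneg _
    calc q v ^ (-((σ - κ) * (((k : ℕ) - 1 : ℕ) : ℝ)))
        ≤ (2 : ℝ) ^ (-((σ - κ) * (((k : ℕ) - 1 : ℕ) : ℝ))) :=
          Real.rpow_le_rpow_of_nonpos (by norm_num) (E.two_le v) (by nlinarith)
      _ ≤ (2 : ℝ) ^ (-(((k : ℕ) - 1 : ℕ) : ℝ)) :=
          Real.rpow_le_rpow_of_exponent_le (by norm_num) (by nlinarith)
      _ = (1 / 2) ^ ((k : ℕ) - 1) := by
          rw [Real.rpow_neg (by norm_num), Real.rpow_natCast, one_div, inv_pow]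
  calc ‖cE t (v, k)‖ * Real.exp (-(σ * lamE q (v, k)))
      ≤ N * q v ^ (κ * (k : ℕ)) * q v ^ (-(σ * (k : ℕ))) := by
        rw [he]
        gcongr
    _ = N * q v ^ (-(σ - κ)) * q v ^ (-((σ - κ) * (((k : ℕ) - 1 : ℕ) : ℝ))) := by
        rw [mul_assoc, hstep, mul_assoc]
    _ ≤ N * q v ^ (-(σ - κ)) * (1 / 2) ^ ((k : ℕ) - 1) := by gcongr

theorem ED.summable' (E : ED κ N q t) (σ₀ : ℝ) {σ : ℝ} (hσ : 1 + κ - σ₀ < σ) :
    Summable fun x => ‖cEs q t σ₀ x‖ * Real.exp (-(σ * lamE q x)) := by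
  refine (E.summable (σ := σ₀ + σ) (by linarith)).congr fun x => ?_
  unfold cEs
  rw [norm_mul, Complex.norm_real, Real.norm_eq_abs, abs_of_pos (Real.exp_pos _), mul_assoc,
    ← Real.exp_add]
  congr 2
  ring

theorem cser_sh (σ₀ : ℝ) (w : ℂ) : cser (lamE q) (cEs q t σ₀) w =
    cser (lamE q) (cE t) (σ₀ + w) := by
  unfold cser cEs
  refine tsum_congr fun x => ?_
  push_cast
  rw [mul_assoc, ← Complex.exp_add]
  congr 2
  ring

/-- a term of the rotated mean at `σ₀` -/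
noncomputable def eterm (q : P → ℝ) (t : P → ℕ+ → ℂ) (σ₀ γ T : ℝ) (x : P × ℕ+) : ℂ :=
  rterm (lamE q) (cEs q t σ₀) γ T x

theorem ED.eterm_summable (E : ED κ N q t) (σ₀ γ : ℝ) {T : ℝ} (hT : 0 < T) :
    Summable fun x => ‖eterm q t σ₀ γ T x‖ := by
  have h0 := abs_nonneg (1 + κ - σ₀)
  have h1 := le_abs_self (1 + κ - σ₀)
  exact rterm_summable E.lam_nonneg (σ := |1 + κ - σ₀| + 1) (by linarith)
    (E.summable' σ₀ (by linarith)) γ hT

/-- **the law at an arbitrary real point** -/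
theorem ED.law [Countable P] (E : ED κ N q t) {F : ℂ → ℂ} {σ₀ : ℝ}
    (hmer : ∀ x : ℝ, σ₀ ≤ x → x ≤ 1 + κ → MeromorphicAt F (x : ℂ))
    (hF : ∀ s : ℂ, 1 + κ < s.re → F s = exp (cser (lamE q) (cE t) s)) {γ : ℝ} (hγ : Real.pi / 2 < γ) :
    ∃ (m : ℤ) (r : ℂ) (C T₀ : ℝ), meromorphicOrderAt F (σ₀ : ℂ) = m ∧
      exp r = meromorphicTrailingCoeffAt F (σ₀ : ℂ) ∧
      ∀ T ≥ T₀, ‖-(∑' x, eterm q t σ₀ γ T x) - (m * (Real.log T - Lam γ) - r)‖ ≤ C / T := by
  set B : ℝ := max (1 + κ - σ₀) 1 with hB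
  have hB1 : 1 ≤ B := le_max_right _ _
  have hBκ : 1 + κ - σ₀ ≤ B := le_max_left _ _
  have hopen : IsOpen {z : ℂ | 1 + κ < z.re} := isOpen_lt continuous_const Complex.continuous_re
  have hmer' : ∀ x : ℝ, σ₀ ≤ x → MeromorphicAt F (x : ℂ) := by
    intro x hx
    by_cases h : x ≤ 1 + κ
    · exact hmer x hx h
    · push Not at h
      have hx' : 1 + κ < ((x : ℝ) : ℂ).re := by rw [Complex.ofReal_re]; exact h
      have h1 : F =ᶠ[𝓝 (x : ℂ)] fun z => exp (cser (lamE q) (cE t) z) := by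
        filter_upwards [hopen.mem_nhds hx'] with z hz
        exact hF z hz
      exact (((cser_an E.lam_nonneg (A := 1 + κ) (fun σ hσ => E.summable hσ) hx').cexp).congr
        h1.symm).meromorphicAt
  obtain ⟨m, r, C, T₀, hm, hr, h⟩ := gen_law (A := B) (lam := lamE q) (c := cEs q t σ₀)
    (Φ := fun w => F ((σ₀ : ℂ) + w)) (by linarith) E.lam_nonneg
    (fun σ hσ => E.summable' σ₀ (by linarith)) (fun x hx => by
      have h1 : MeromorphicAt F ((σ₀ : ℂ) + (x : ℂ)) := by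
        have := hmer' (σ₀ + x) (by linarith [hx.1])
        push_cast at this
        exact this
      exact h1.comp_analyticAt (g := fun w : ℂ => (σ₀ : ℂ) + w) (by fun_prop)) (fun w hw => by
      have h1 : 1 + κ < ((σ₀ : ℂ) + w).re := by
        rw [Complex.add_re, Complex.ofReal_re]
        linarith
      show F ((σ₀ : ℂ) + w) = _
      rw [hF _ h1, cser_sh]) hγ
  rw [coeff_sh] at hr
  rw [order_sh, add_zero] at hm
  exact ⟨m, r, C, T₀, hm, hr, h⟩

/-- from the law to the limit -/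
theorem limit_of' {S : ℝ → ℂ} {m : ℤ} {r c Λ : ℂ} {C T₀ : ℝ} (hr : exp r = c)
    (h : ∀ T ≥ T₀, ‖S T - (m * (Real.log T - Λ) - r)‖ ≤ C / T) :
    (fun T : ℝ => S T - (m * (Real.log T - Λ) - r)) =O[atTop] (fun T : ℝ => 1 / T) ∧
    Tendsto (fun T : ℝ => exp (S T) / (T : ℂ) ^ m) atTop (𝓝 (exp (-(m * Λ)) / c)) := by
  have hO : (fun T : ℝ => S T - (m * (Real.log T - Λ) - r)) =O[atTop] (fun T : ℝ => 1 / T) := by
    refine Asymptotics.IsBigO.of_bound C ?_
    filter_upwards [eventually_ge_atTop T₀, eventually_gt_atTop 0] with T hT hT0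
    rw [Real.norm_eq_abs, abs_of_pos (by positivity : 0 < 1 / T), mul_one_div]
    exact h T hT
  refine ⟨hO, ?_⟩
  have h1 : Tendsto (fun T : ℝ => S T - (m * (Real.log T - Λ) - r)) atTop (𝓝 0) := by
    refine hO.trans_tendsto ?_
    exact tendsto_const_nhds.div_atTop tendsto_id
  have h2 : Tendsto (fun T : ℝ => exp (S T - (m * (Real.log T - Λ) - r)) *
      (exp (-(m * Λ)) / c)) atTop (𝓝 (1 * (exp (-(m * Λ)) / c))) := by
    refine Tendsto.mul_const _ ?_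
    have := (Complex.continuous_exp.tendsto 0).comp h1
    simpa [Function.comp_def] using this
  rw [one_mul] at h2
  refine h2.congr' ?_
  filter_upwards [eventually_gt_atTop 0] with T hT
  have h3 : (T : ℂ) ^ m = exp (m * Real.log T) := by
    rw [Complex.exp_int_mul, ← Complex.ofReal_exp, Real.exp_log hT]
  rw [h3, ← hr, ← Complex.exp_sub, ← Complex.exp_sub, ← Complex.exp_add]
  congr 1
  ring

/-! ### The Euler product -/

/-- one Euler factor -/
theorem factor_c {N : ℕ} {q : ℝ} (hq : 2 ≤ q) {a : Fin N → ℂ} {κ : ℝ} (ha : ∀ j, ‖a j‖ ≤ q ^ κ)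
    {w : ℂ} (hw : κ < w.re) :
    HasSum (fun k : ℕ+ => (∑ j, a j ^ (k : ℕ)) / ((k : ℕ) : ℂ) *
      exp (-(w * (((k : ℕ) : ℝ) * Real.log q : ℝ)))) (∑ j, -log (1 - a j * (q : ℂ) ^ (-w))) ∧
    exp (∑ j, -log (1 - a j * (q : ℂ) ^ (-w))) = ∏ j, (1 - a j * (q : ℂ) ^ (-w))⁻¹ := by
  have hq0 : 0 < q := by linarith
  set x : ℂ := (q : ℂ) ^ (-w) with hx
  have hxn : ‖x‖ = q ^ (-w.re) := by
    rw [hx, Complex.norm_cpow_eq_rpow_re_of_pos hq0]
    simp
  have hb : ∀ j, ‖a j * x‖ < 1 := by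
    intro j
    rw [norm_mul, hxn]
    calc ‖a j‖ * q ^ (-w.re) ≤ q ^ κ * q ^ (-w.re) := by
          gcongr
          exact ha j
      _ = q ^ (κ + -w.re) := (Real.rpow_add hq0 _ _).symm
      _ < 1 := Real.rpow_lt_one_of_one_lt_of_neg (by linarith) (by linarith)
  have hterm : ∀ n : ℕ, (∑ j, a j ^ ((n.succPNat : ℕ+) : ℕ)) / (((n.succPNat : ℕ+) : ℕ) : ℂ) *
      exp (-(w * ((((n.succPNat : ℕ+) : ℕ) : ℝ) * Real.log q : ℝ))) =
      ∑ j, (a j * x) ^ (n + 1) / ((n + 1 : ℕ) : ℂ) := by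
    intro n
    have e1 : x ^ (n + 1) = exp (-(w * (((n + 1 : ℕ) : ℝ) * Real.log q : ℝ))) := by
      have hqc : (q : ℂ) ≠ 0 := by exact_mod_cast hq0.ne'
      rw [hx, Complex.cpow_def_of_ne_zero hqc, ← Complex.exp_nat_mul]
      congr 1
      rw [← Complex.ofReal_log hq0.le]
      push_cast
      ring
    rw [Nat.succPNat_coe, Nat.succ_eq_add_one, ← e1, Finset.sum_div, Finset.sum_mul]
    refine Finset.sum_congr rfl fun j _ => ?_
    rw [mul_pow]
    ring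
  have hs : ∀ z : ℂ, ‖z‖ < 1 →
      HasSum (fun n : ℕ => z ^ (n + 1) / ((n + 1 : ℕ) : ℂ)) (-log (1 - z)) := by
    intro z hz
    have := Complex.hasSum_taylorSeries_neg_log hz
    rw [← hasSum_nat_add_iff' 1] at this
    simpa using this
  constructor
  · have h1 : HasSum (fun n : ℕ => ∑ j, (a j * x) ^ (n + 1) / ((n + 1 : ℕ) : ℂ))
        (∑ j, -log (1 - a j * x)) := hasSum_sum fun j _ => hs _ (hb j)
    simp only [← hterm] at h1
    have h2 := (Equiv.hasSum_iff Equiv.pnatEquivNat.symm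
      (f := fun k : ℕ+ => (∑ j, a j ^ (k : ℕ)) / ((k : ℕ) : ℂ) *
      exp (-(w * (((k : ℕ) : ℝ) * Real.log q : ℝ)))) (a := ∑ j, -log (1 - a j * x))).1 h1
    exact h2
  · rw [Complex.exp_sum]
    refine Finset.prod_congr rfl fun j _ => ?_
    have h1 : 1 - a j * x ≠ 0 := by
      intro h0
      have h2 : a j * x = 1 := by linear_combination -h0
      have h3 := hb j
      rw [h2, norm_one] at h3
      exact lt_irrefl _ h3
    rw [Complex.exp_neg, Complex.exp_log h1]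

/-- the data of an Euler product with parameters -/
theorem ed_of {a : P → Fin N → ℂ} (h2 : ∀ v, 2 ≤ q v)
    (hs : ∀ σ : ℝ, 1 < σ → Summable fun v => q v ^ (-σ)) (ha : ∀ v j, ‖a v j‖ ≤ q v ^ κ) :
    ED κ N q (fun v k => ∑ j, a v j ^ (k : ℕ)) where
  two_le := h2
  sum := hs
  bound := fun v k => by
    have hq : 0 < q v := by linarith [h2 v]
    refine (norm_sum_le_of_le (n := fun _ => q v ^ (κ * (k : ℕ))) _ fun j _ => ?_).trans
      (le_of_eq ?_)
    · rw [norm_pow, Real.rpow_mul hq.le, Real.rpow_natCast]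
      exact pow_le_pow_left₀ (norm_nonneg _) (ha v j) _
    · rw [Finset.sum_const, Finset.card_univ, Fintype.card_fin, nsmul_eq_mul]

theorem ed_summable_c (E : ED κ N q t) {s : ℂ} (hs : 1 + κ < s.re) :
    Summable fun x => cE t x * exp (-(s * lamE q x)) := by
  obtain ⟨σ, h1, h2⟩ := exists_between hs
  exact Summable.of_norm_bounded (E.summable h1) fun x => cterm_norm E.lam_nonneg h2.le x

/-- the Euler product -/
theorem hasProd_c {a : P → Fin N → ℂ} (h2 : ∀ v, 2 ≤ q v)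
    (hs : ∀ σ : ℝ, 1 < σ → Summable fun v => q v ^ (-σ)) (ha : ∀ v j, ‖a v j‖ ≤ q v ^ κ) {s : ℂ}
    (hs1 : 1 + κ < s.re) :
    HasProd (fun v => ∏ j, (1 - a v j * (q v : ℂ) ^ (-s))⁻¹)
      (exp (cser (lamE q) (cE fun v k => ∑ j, a v j ^ (k : ℕ)) s)) := by
  have E := ed_of (N := N) h2 hs ha
  have h1 := (ed_summable_c E hs1).hasSum
  have h3 : ∀ v, HasSum (fun k : ℕ+ => cE (fun v (k : ℕ+) => ∑ j, a v j ^ (k : ℕ)) (v, k) *
      exp (-(s * lamE q (v, k)))) (∑ j, -log (1 - a v j * (q v : ℂ) ^ (-s))) := fun v =>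
    (factor_c (h2 v) (ha v) (by linarith : κ < s.re)).1
  have h4 := h1.prod_fiberwise h3
  have h5 := h4.cexp
  have h6 : (exp ∘ fun v => ∑ j, -log (1 - a v j * (q v : ℂ) ^ (-s))) =
      fun v => ∏ j, (1 - a v j * (q v : ℂ) ^ (-s))⁻¹ := by
    funext v
    exact (factor_c (h2 v) (ha v) (by linarith : κ < s.re)).2
  rw [h6] at h5
  exact h5

end Pool.Agent.Run7.h453.CX
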