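import Pool.Agent.Run7.h453.CX.Log
import Pool.Agent.W187.UR.Bel
import Pool.Agent.W187.UR.RefC
import Pool.Agent.W187.UR.NF

/-! The logarithm below the real segment for a function which is not real on the real axis. The
proof follows `Pool.Agent.W187.UR.BelC`. -/

set_option autoImplicit false

namespace Pool.Agent.Run7.h453.CX

open Complex MeasureTheory Filter Topology Set
open scoped ComplexConjugate
open Pool.Agent.W189.ML Pool.Agent.W189.LC Pool.Agent.W187.UR

/-- the branch below the segment -/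
theorem bel_of {Z : Finset ℝ} (n : ℝ → ℤ) (m : ℤ) (hZ : ∀ x ∈ Z, 0 < x ∧ x ≤ 1) {l : ℂ → ℂ}
    (hl : ∀ x ∈ Icc (0 : ℝ) 2, AnalyticAt ℂ l (x : ℂ)) {δ₂ : ℝ} (hδ₂ : 0 < δ₂) :
    ∃ η B : ℝ, η < δ₂ ∧ Bel m ((∑ x ∈ Z, (n x : ℂ) * (Real.log x - Real.pi * I)) + l 0) η B
      (fun w => m * log w + (∑ x ∈ Z, (n x : ℂ) * log (w - x)) + l w) := by
  obtain ⟨δ₁, hδ₁, M, hM0, hM⟩ := rect' hl
  set η : ℝ := min (min δ₁ (δ₂ / 2)) 1 with hη
  have hη0 : 0 < η := lt_min (lt_min hδ₁ (by positivity)) one_pos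
  have hηδ : η < δ₂ := by
    have := (min_le_left (min δ₁ (δ₂ / 2)) 1).trans (min_le_right _ _)
    linarith
  set L : ℂ → ℂ := fun w => m * log w + (∑ x ∈ Z, (n x : ℂ) * log (w - x)) + l w with hL
  set r₀ : ℂ := (∑ x ∈ Z, (n x : ℂ) * (Real.log x - Real.pi * I)) + l 0 with hr₀
  refine ⟨η, (∑ x ∈ Z, |(n x : ℝ)| * Cx x) + M, hηδ, hη0, ?_, ?_, ?_⟩
  · have : 0 ≤ ∑ x ∈ Z, |(n x : ℝ)| * Cx x :=
      Finset.sum_nonneg fun x hx => mul_nonneg (abs_nonneg _) (Cx_nonneg (hZ x hx).1)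
    linarith
  · intro w h6 h7 h8 h9
    have h10 : |w.im| ≤ δ₁ := by
      rw [abs_of_neg h9]
      have := (min_le_left (min δ₁ (δ₂ / 2)) 1).trans (min_le_left _ _)
      linarith
    have h11 := (hM w h6.le h7 h10).2
    rw [hL]
    refine DifferentiableAt.add (DifferentiableAt.add ?_ ?_) h11
    · exact (DifferentiableAt.clog differentiableAt_id (Or.inl h6)).const_mul _
    · refine DifferentiableAt.fun_sum fun x hx => ?_
      refine (DifferentiableAt.clog (by fun_prop) (Or.inr ?_)).const_mul _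
      simp
      exact h9.ne
  · intro w h6 h7 h8 h9
    have h10 : |w.im| ≤ δ₁ := by
      rw [abs_of_neg h9]
      have := (min_le_left (min δ₁ (δ₂ / 2)) 1).trans (min_le_left _ _)
      linarith
    have h8' : -1 ≤ w.im := by
      have := min_le_right (min δ₁ (δ₂ / 2)) 1
      linarith
    have h11 := (hM w h6.le h7 h10).1
    have h12 : L w - m * log w - r₀ = (∑ x ∈ Z, (n x : ℂ) *
        (log (w - x) - (Real.log x - Real.pi * I))) + (l w - l 0) := by
      rw [hL, hr₀]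
      simp only [mul_sub, Finset.sum_sub_distrib]
      ring
    rw [h12]
    set X := ‖w‖ * (1 + ‖w‖ * |Real.log (-w.im)|) with hX
    have hX1 : ‖w‖ ≤ X := by
      have : 0 ≤ ‖w‖ * (‖w‖ * |Real.log (-w.im)|) := by positivity
      rw [hX]; nlinarith
    have h13 : ‖∑ x ∈ Z, (n x : ℂ) * (log (w - x) - (Real.log x - Real.pi * I))‖ ≤
        ∑ x ∈ Z, |(n x : ℝ)| * Cx x * X := by
      refine norm_sum_le_of_le _ fun x hx => ?_
      rw [norm_mul, Complex.norm_intCast, mul_assoc]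
      exact mul_le_mul_of_nonneg_left (one_zero (hZ x hx).1 (hZ x hx).2 h6 h7 h8' h9)
        (abs_nonneg _)
    rw [← Finset.sum_mul] at h13
    calc ‖_ + (l w - l 0)‖ ≤ (∑ x ∈ Z, |(n x : ℝ)| * Cx x) * X + M * ‖w‖ :=
          (norm_add_le _ _).trans (add_le_add h13 h11)
      _ ≤ (∑ x ∈ Z, |(n x : ℝ)| * Cx x) * X + M * X := by gcongr
      _ = _ := by rw [hX]; ring

/-- `conj ∘ l ∘ conj` -/
noncomputable def st (l : ℂ → ℂ) (w : ℂ) : ℂ := conj (l (conj w))

theorem st_analytic {l : ℂ → ℂ} {x : ℝ} (hl : AnalyticAt ℂ l (x : ℂ)) :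
    AnalyticAt ℂ (st l) (x : ℂ) := by
  rw [Complex.analyticAt_iff_eventually_differentiableAt] at hl ⊢
  have hc : Tendsto (fun w : ℂ => conj w) (𝓝 (x : ℂ)) (𝓝 (x : ℂ)) := by
    have h1 : Continuous fun w : ℂ => conj w := Complex.continuous_conj
    have h2 := h1.tendsto (x : ℂ)
    rwa [Complex.conj_ofReal] at h2
  filter_upwards [hc.eventually hl] with w hw
  have h3 := hw.conj_conj
  rw [Complex.conj_conj] at h3
  exact h3

theorem ser_conj {ι : Type} (lam c : ι → ℝ) (w : ℂ) :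
    conj (ser lam c (conj w)) = ser lam c w := by
  unfold ser
  rw [Complex.conj_tsum]
  refine tsum_congr fun i => ?_
  rw [map_mul, Complex.conj_ofReal, ← Complex.exp_conj, map_neg, map_mul, Complex.conj_conj,
    Complex.conj_ofReal]

end Pool.Agent.Run7.h453.CX
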