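import Pool.Agent.Run7.h453.CX.Law

/-! The rotated law for complex coefficients and an arbitrary half-plane of convergence. -/

set_option autoImplicit false

namespace Pool.Agent.Run7.h453.CX

open Complex MeasureTheory Filter Topology Set
open Pool.Agent.W189.ML Pool.Agent.W187.UR

variable {ι : Type}

/-- the Dirichlet series with complex coefficients -/
noncomputable def cser (lam : ι → ℝ) (c : ι → ℂ) (w : ℂ) : ℂ := ∑' i, c i * exp (-(w * lam i))

/-- a term of the rotated mean -/
noncomputable def rterm (lam : ι → ℝ) (c : ι → ℂ) (γ T : ℝ) (i : ι) : ℂ :=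
  c i * exp ((γ * (lam i / T) : ℝ) * I) * (om (lam i / T) : ℂ)

variable {lam : ι → ℝ} {c : ι → ℂ} {Φ : ℂ → ℂ} {A : ℝ}

theorem cterm_norm (hlam : ∀ i, 0 ≤ lam i) {σ : ℝ} {w : ℂ} (hw : σ ≤ w.re) (i : ι) :
    ‖c i * exp (-(w * lam i))‖ ≤ ‖c i‖ * Real.exp (-(σ * lam i)) := by
  rw [norm_mul, Complex.norm_exp]
  refine mul_le_mul_of_nonneg_left ?_ (norm_nonneg _)
  apply Real.exp_le_exp.2
  have h2 : (-(w * lam i)).re = -(w.re * lam i) := by rw [Complex.neg_re, Complex.re_mul_ofReal]
  rw [h2]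
  have := hlam i
  nlinarith

theorem om_nonneg' {v : ℝ} (hv : 0 ≤ v) : 0 ≤ om v := by
  unfold om
  exact inv_nonneg.2 (Real.Gamma_nonneg_of_nonneg (by linarith))

theorem rterm_summable (hlam : ∀ i, 0 ≤ lam i) {σ : ℝ} (hσ : 0 < σ)
    (hs : Summable fun i => ‖c i‖ * Real.exp (-(σ * lam i))) (γ : ℝ) {T : ℝ} (hT : 0 < T) :
    Summable fun i => ‖rterm lam c γ T i‖ := by
  refine Summable.of_nonneg_of_le (fun x => norm_nonneg _) (fun i => ?_)
    (hs.mul_left (Real.exp (Real.exp (σ * T)) + 1))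
  unfold rterm
  rw [norm_mul, norm_mul, Complex.norm_exp_ofReal_mul_I, mul_one, Complex.norm_real,
    Real.norm_eq_abs]
  have hv : 0 ≤ lam i / T := div_nonneg (hlam i) hT.le
  have h1 := Pool.Agent.W189.ML.om_le (a := σ * T) (v := lam i / T) (by positivity) hv
  have h2 : σ * T * (lam i / T) = σ * lam i := by field_simp
  rw [h2] at h1
  rw [abs_of_nonneg (om_nonneg' hv)]
  calc ‖c i‖ * om (lam i / T)
      ≤ ‖c i‖ * ((Real.exp (Real.exp (σ * T)) + 1) * Real.exp (-(σ * lam i))) := by gcongr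
    _ = _ := by ring

theorem ser_split (hlam : ∀ i, 0 ≤ lam i) {σ : ℝ}
    (hs : Summable fun i => ‖c i‖ * Real.exp (-(σ * lam i))) {w : ℂ} (hw : σ ≤ w.re) :
    cser lam c w = ser lam (fun i => (c i).re) w + I * ser lam (fun i => (c i).im) w := by
  have h1 : Summable fun i => (((c i).re : ℝ) : ℂ) * exp (-(w * lam i)) := by
    refine Summable.of_norm_bounded hs fun i => ?_
    have h := cterm_norm (c := fun i => (((c i).re : ℝ) : ℂ)) hlam hw i
    refine h.trans (mul_le_mul_of_nonneg_right ?_ (Real.exp_pos _).le)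
    rw [Complex.norm_real, Real.norm_eq_abs]
    exact Complex.abs_re_le_norm _
  have h2 : Summable fun i => (((c i).im : ℝ) : ℂ) * exp (-(w * lam i)) := by
    refine Summable.of_norm_bounded hs fun i => ?_
    have h := cterm_norm (c := fun i => (((c i).im : ℝ) : ℂ)) hlam hw i
    refine h.trans (mul_le_mul_of_nonneg_right ?_ (Real.exp_pos _).le)
    rw [Complex.norm_real, Real.norm_eq_abs]
    exact Complex.abs_im_le_norm _
  unfold cser ser
  rw [← tsum_mul_left, ← h1.tsum_add (h2.mul_left I)]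
  refine tsum_congr fun i => ?_
  nth_rewrite 1 [← Complex.re_add_im (c i)]
  ring

theorem mean_split (hlam : ∀ i, 0 ≤ lam i) {σ : ℝ} (hσ : 0 < σ)
    (hs : Summable fun i => ‖c i‖ * Real.exp (-(σ * lam i))) (γ : ℝ) {T : ℝ} (hT : 0 < T) :
    ∑' i, rterm lam c γ T i = cmean lam (fun i => (c i).re) γ T +
      I * cmean lam (fun i => (c i).im) γ T := by
  have hs1 : Summable fun i => ‖((((c i).re : ℝ) : ℂ))‖ * Real.exp (-(σ * lam i)) := by
    refine Summable.of_nonneg_of_le (fun i => by positivity) (fun i => ?_) hs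
    refine mul_le_mul_of_nonneg_right ?_ (Real.exp_pos _).le
    rw [Complex.norm_real, Real.norm_eq_abs]
    exact Complex.abs_re_le_norm _
  have hs2 : Summable fun i => ‖((((c i).im : ℝ) : ℂ))‖ * Real.exp (-(σ * lam i)) := by
    refine Summable.of_nonneg_of_le (fun i => by positivity) (fun i => ?_) hs
    refine mul_le_mul_of_nonneg_right ?_ (Real.exp_pos _).le
    rw [Complex.norm_real, Real.norm_eq_abs]
    exact Complex.abs_im_le_norm _
  have h1 := (rterm_summable (c := fun i => (((c i).re : ℝ) : ℂ)) hlam hσ hs1 γ hT).of_norm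
  have h2 := (rterm_summable (c := fun i => (((c i).im : ℝ) : ℂ)) hlam hσ hs2 γ hT).of_norm
  unfold cmean
  have e1 : ∑' i, (((c i).re : ℝ) : ℂ) * exp ((γ * (lam i / T) : ℝ) * I) * (om (lam i / T) : ℂ) =
      ∑' i, rterm lam (fun i => (((c i).re : ℝ) : ℂ)) γ T i := rfl
  have e2 : ∑' i, (((c i).im : ℝ) : ℂ) * exp ((γ * (lam i / T) : ℝ) * I) * (om (lam i / T) : ℂ) =
      ∑' i, rterm lam (fun i => (((c i).im : ℝ) : ℂ)) γ T i := rfl
  rw [e1, e2, ← tsum_mul_left, ← h1.tsum_add (h2.mul_left I)]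
  refine tsum_congr fun i => ?_
  unfold rterm
  nth_rewrite 1 [← Complex.re_add_im (c i)]
  ring

theorem cser_an (hlam : ∀ i, 0 ≤ lam i)
    (hs : ∀ σ : ℝ, A < σ → Summable fun i => ‖c i‖ * Real.exp (-(σ * lam i))) {w : ℂ}
    (hw : A < w.re) : AnalyticAt ℂ (cser lam c) w := by
  set σ : ℝ := (A + w.re) / 2 with hσ
  have hσ1 : A < σ := by rw [hσ]; linarith
  have hσw : σ < w.re := by rw [hσ]; linarith
  have hopen : IsOpen {z : ℂ | σ < z.re} := isOpen_lt continuous_const Complex.continuous_re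
  have h1 : DifferentiableOn ℂ (cser lam c) {z : ℂ | σ < z.re} := by
    unfold cser
    refine differentiableOn_tsum_of_summable_norm (hs σ hσ1) (fun i => ?_) hopen
      (fun i z hz => ?_)
    · exact Differentiable.differentiableOn (by fun_prop)
    · exact cterm_norm hlam (le_of_lt hz) i
  exact h1.analyticAt (hopen.mem_nhds hσw)

/-- **The rotated law for complex coefficients.** -/
theorem gen_law [Countable ι] (hA : 0 < A) (hlam : ∀ i, 0 ≤ lam i)
    (hs : ∀ σ : ℝ, A < σ → Summable fun i => ‖c i‖ * Real.exp (-(σ * lam i)))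
    (hmer : ∀ x ∈ Icc (0 : ℝ) A, MeromorphicAt Φ (x : ℂ))
    (heq : ∀ w : ℂ, A < w.re → Φ w = exp (cser lam c w)) {γ : ℝ} (hγ : Real.pi / 2 < γ) :
    ∃ (m : ℤ) (r : ℂ) (C T₀ : ℝ), meromorphicOrderAt Φ 0 = m ∧
      exp r = meromorphicTrailingCoeffAt Φ 0 ∧
      ∀ T ≥ T₀, ‖-(∑' i, rterm lam c γ T i) - (m * (Real.log T - Lam γ) - r)‖ ≤ C / T := by
  have hAc : (A : ℂ) ≠ 0 := by exact_mod_cast hA.ne'
  have hmer2 : ∀ x : ℝ, 0 ≤ x → MeromorphicAt Φ (x : ℂ) := by
    intro x hx
    by_cases h : x ≤ A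
    · exact hmer x ⟨hx, h⟩
    · push Not at h
      have hopen : IsOpen {z : ℂ | A < z.re} := isOpen_lt continuous_const Complex.continuous_re
      have hx' : A < ((x : ℝ) : ℂ).re := by rw [Complex.ofReal_re]; exact h
      have h1 : Φ =ᶠ[𝓝 (x : ℂ)] fun z => exp (cser lam c z) := by
        filter_upwards [hopen.mem_nhds hx'] with z hz
        exact heq z hz
      exact (((cser_an hlam hs hx').cexp).congr h1.symm).meromorphicAt
  have habs : ∀ (f : ι → ℝ), (∀ i, |f i| ≤ ‖c i‖) → ∀ σ : ℝ, 1 < σ →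
      Summable fun i => |f i| * Real.exp (-(σ * (A * lam i))) := by
    intro f hf σ hσ
    have h1 := hs (A * σ) (by nlinarith)
    refine Summable.of_nonneg_of_le (fun i => by positivity) (fun i => ?_) h1
    have h2 : A * σ * lam i = σ * (A * lam i) := by ring
    rw [h2]
    exact mul_le_mul_of_nonneg_right (hf i) (Real.exp_pos _).le
  have hser : ∀ (f : ι → ℝ) (w : ℂ), ser (fun i => A * lam i) f w = ser lam f (A * w) := by
    intro f w
    unfold ser
    refine tsum_congr fun i => ?_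
    congr 2
    push_cast
    ring
  have D : CData (fun i => A * lam i) (fun i => (c i).re) (fun i => (c i).im)
      (fun w => Φ (A * w)) :=
    { lam_pos := fun i => mul_nonneg hA.le (hlam i)
      sumc := habs _ fun i => Complex.abs_re_le_norm _
      sumd := habs _ fun i => Complex.abs_im_le_norm _
      mero := fun x hx => by
        have h1 := hmer2 (A * x) (mul_nonneg hA.le hx.1)
        push_cast at h1
        exact Pool.Agent.N41.RM.mero_scale h1
      eq := fun w hw => by
        have h2 : A < ((A : ℂ) * w).re := by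
          rw [Complex.re_ofReal_mul]
          nlinarith
        rw [hser, hser, heq _ h2]
        obtain ⟨σ, hσ1, hσ2⟩ := exists_between h2
        rw [ser_split hlam (hs σ hσ1) hσ2.le] }
  have htop := D.order_ne_top (x := 0) ⟨le_rfl, by norm_num⟩
  rw [Complex.ofReal_zero] at htop
  obtain ⟨m, hm⟩ := WithTop.ne_top_iff_exists.1 htop
  obtain ⟨r, C, T₀, hr, hC, hT₀, h⟩ := D.law hm.symm hγ
  have hmer0 : MeromorphicAt Φ 0 := by
    have := hmer2 0 le_rfl
    rwa [Complex.ofReal_zero] at this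
  rw [Pool.Agent.N41.RM.order_scale hAc, mul_zero] at hm
  rw [Pool.Agent.N41.RM.coeff_scale hAc hmer0 hm.symm] at hr
  refine ⟨m, r - m * Real.log A, C / A, T₀ / A, hm.symm, ?_, ?_⟩
  · rw [Complex.exp_sub, hr, Complex.exp_int_mul, ← Complex.ofReal_exp, Real.exp_log hA]
    field_simp
  · intro T hT
    have h1 := h (A * T) (by
      have := (div_le_iff₀ hA).1 hT
      linarith)
    have hT0 : 0 < T := by
      have h2 : 0 < T₀ / A := div_pos (by linarith) hA
      linarith
    have h2 : ∀ f : ι → ℝ, cmean (fun i => A * lam i) f γ (A * T) = cmean lam f γ T := by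
      intro f
      unfold cmean
      refine tsum_congr fun i => ?_
      have h3 : A * lam i / (A * T) = lam i / T := mul_div_mul_left _ _ hA.ne'
      rw [h3]
    have h5 := mean_split hlam (by linarith : (0 : ℝ) < A + 1) (hs (A + 1) (by linarith)) γ hT0
    rw [h2, h2, ← h5, Real.log_mul hA.ne' hT0.ne'] at h1
    have h4 : -(∑' i, rterm lam c γ T i) - (↑m * (↑(Real.log T) - Lam γ) - (r - ↑m * ↑(Real.log A))) =
        -(∑' i, rterm lam c γ T i) - (↑m * (↑(Real.log A + Real.log T) - Lam γ) - r) := by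
      push_cast
      ring
    rw [h4]
    exact h1.trans (div_div C A T).ge

end Pool.Agent.Run7.h453.CX
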