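import Pool.Agent.Run7.h453.CX.Bel
import Pool.Agent.N41.RM.GenS

/-! The rotated law for generalised Dirichlet series with complex coefficients. -/

set_option autoImplicit false

namespace Pool.Agent.Run7.h453.CX

open Complex MeasureTheory Filter Topology Set
open scoped ComplexConjugate
open Pool.Agent.W189.ML Pool.Agent.W189.LC Pool.Agent.W187.UR

variable {ι : Type}

theorem ser_an {lam c : ι → ℝ} (h0 : ∀ i, 0 ≤ lam i)
    (hs : ∀ σ : ℝ, 1 < σ → Summable fun i => |c i| * Real.exp (-(σ * lam i))) {w : ℂ}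
    (hw : 1 < w.re) : AnalyticAt ℂ (ser lam c) w := by
  set σ : ℝ := (1 + w.re) / 2 with hσ
  have hσ1 : 1 < σ := by rw [hσ]; linarith
  have hσw : σ < w.re := by rw [hσ]; linarith
  have hopen : IsOpen {z : ℂ | σ < z.re} := isOpen_lt continuous_const Complex.continuous_re
  have h1 : DifferentiableOn ℂ (ser lam c) {z : ℂ | σ < z.re} := by
    unfold ser
    refine differentiableOn_tsum_of_summable_norm (hs σ hσ1) (fun i => ?_) hopen
      (fun i z hz => ?_)
    · exact Differentiable.differentiableOn (by fun_prop)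
    · rw [norm_mul, Complex.norm_real, Real.norm_eq_abs, Complex.norm_exp]
      refine mul_le_mul_of_nonneg_left ?_ (abs_nonneg _)
      apply Real.exp_le_exp.2
      have h2 : (-(z * lam i)).re = -(z.re * lam i) := by rw [Complex.neg_re, Complex.re_mul_ofReal]
      rw [h2]
      have hz' : σ < z.re := hz
      have := h0 i
      nlinarith
  exact h1.analyticAt (hopen.mem_nhds hσw)

/-- `Φ = exp (∑ (c_i + I d_i) e^{-w lam_i})` for `Re w > 1`, with a meromorphic continuation to a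
neighbourhood of `[0, 2]`. -/
structure CData (lam c d : ι → ℝ) (Φ : ℂ → ℂ) : Prop where
  lam_pos : ∀ i, 0 ≤ lam i
  sumc : ∀ σ : ℝ, 1 < σ → Summable fun i => |c i| * Real.exp (-(σ * lam i))
  sumd : ∀ σ : ℝ, 1 < σ → Summable fun i => |d i| * Real.exp (-(σ * lam i))
  mero : ∀ x ∈ Icc (0 : ℝ) 2, MeromorphicAt Φ (x : ℂ)
  eq : ∀ w : ℂ, 1 < w.re → Φ w = exp (ser lam c w + I * ser lam d w)

variable {lam c d : ι → ℝ} {Φ : ℂ → ℂ}

theorem CData.g_an (D : CData lam c d Φ) {w : ℂ} (hw : 1 < w.re) :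
    AnalyticAt ℂ (fun w => ser lam c w + I * ser lam d w) w :=
  (ser_an D.lam_pos D.sumc hw).add (analyticAt_const.mul (ser_an D.lam_pos D.sumd hw))

theorem CData.order_right (D : CData lam c d Φ) {w : ℂ} (hw : 1 < w.re) :
    meromorphicOrderAt Φ w = 0 := by
  have hopen : IsOpen {z : ℂ | 1 < z.re} := isOpen_lt continuous_const Complex.continuous_re
  have h1 : Φ =ᶠ[𝓝 w] fun z => exp (ser lam c z + I * ser lam d z) := by
    filter_upwards [hopen.mem_nhds hw] with z hz
    exact D.eq z hz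
  have h2 : AnalyticAt ℂ Φ w := ((D.g_an hw).cexp).congr h1.symm
  have h3 : Φ w ≠ 0 := by
    rw [D.eq w hw]
    exact Complex.exp_ne_zero _
  rw [h2.meromorphicOrderAt_eq, h2.analyticOrderAt_eq_zero.2 h3]
  rfl

theorem CData.order_ne_top (D : CData lam c d Φ) {x : ℝ} (hx : x ∈ Icc (0 : ℝ) 2) :
    meromorphicOrderAt Φ (x : ℂ) ≠ ⊤ := by
  set U : Set ℂ := (fun x : ℝ => (x : ℂ)) '' Icc 0 2 with hU
  have hm : MeromorphicOn Φ U := by
    rintro _ ⟨y, hy, rfl⟩
    exact D.mero y hy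
  have hc : IsPreconnected U :=
    isPreconnected_Icc.image _ (Continuous.continuousOn (by fun_prop))
  refine hm.meromorphicOrderAt_ne_top_of_isPreconnected hc (x := ((2 : ℝ) : ℂ))
    ⟨2, ⟨by norm_num, le_rfl⟩, rfl⟩ ⟨x, hx, rfl⟩ ?_
  rw [D.order_right (by simp)]
  exact WithTop.zero_ne_top

theorem sdata_of {c : ι → ℝ} (h0 : ∀ i, 0 ≤ lam i)
    (hs : ∀ σ : ℝ, 1 < σ → Summable fun i => |c i| * Real.exp (-(σ * lam i))) :
    SData lam (fun i => -c i) (fun _ => 0) where
  lam_pos := h0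
  sum := by
    simp only [abs_neg]
    exact hs 2 (by norm_num)
  Gd := fun _ _ => differentiableAt_const _
  Gb := ⟨0, fun _ _ _ => by simp⟩
  G2 := by simp

/-- **The rotated law, abscissa `1`.** -/
theorem CData.law [Countable ι] (D : CData lam c d Φ) {m : ℤ} (hm : meromorphicOrderAt Φ 0 = m)
    {γ : ℝ} (hγ : Real.pi / 2 < γ) :
    ∃ (r : ℂ) (C T₀ : ℝ), exp r = meromorphicTrailingCoeffAt Φ 0 ∧ 0 ≤ C ∧ 1 ≤ T₀ ∧ ∀ T ≥ T₀,
      ‖-(cmean lam c γ T + I * cmean lam d γ T) - (m * (Real.log T - Lam γ) - r)‖ ≤ C / T := by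
  obtain ⟨Z, n, Q, hZ, hQa, hQ0, hQ2, htr⟩ := facx D.mero (fun x hx => D.order_ne_top hx)
    (fun w hw => D.g_an hw) D.eq hm
  obtain ⟨l, hla, hl2, hl0⟩ := logQ hQa hQ0
  set g : ℂ → ℂ := fun w => ser lam c w + I * ser lam d w with hg
  have h22 : (2 : ℝ) ∈ Icc (0 : ℝ) 2 := ⟨by norm_num, le_rfl⟩
  have hs2 : (2 : ℂ) ∈ slitPlane := by left; simp
  have hne2 : ∀ x ∈ Z, (2 : ℂ) - (x : ℂ) ∈ slitPlane := by
    intro x hx
    left
    have := (hZ x hx).2
    simp
    linarith
  have hslit : ∀ᶠ w in 𝓝 (2 : ℂ), w ∈ slitPlane ∧ ∀ x ∈ Z, w - (x : ℂ) ∈ slitPlane := by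
    have e1 : ∀ᶠ w in 𝓝 (2 : ℂ), w ∈ slitPlane := isOpen_slitPlane.mem_nhds hs2
    have e2 : ∀ᶠ w in 𝓝 (2 : ℂ), ∀ x ∈ Z, w - (x : ℂ) ∈ slitPlane := by
      rw [Filter.eventually_all_finset]
      intro x hx
      have : ContinuousAt (fun w : ℂ => w - (x : ℂ)) 2 := by fun_prop
      exact this.eventually (isOpen_slitPlane.mem_nhds (hne2 x hx))
    exact e1.and e2
  -- the constant
  set dd : ℂ → ℂ := fun w => g w - (m * log w + (∑ x ∈ Z, (n x : ℂ) * log (w - x)) + l w) with hdd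
  have hdc : ContinuousAt dd 2 := by
    have e0 : ContinuousAt l 2 := by
      have := (hla 2 h22).continuousAt
      norm_num at this
      exact this
    refine ContinuousAt.sub (D.g_an (by norm_num)).continuousAt (ContinuousAt.add
      (ContinuousAt.add ?_ ?_) e0)
    · exact continuousAt_const.mul (ContinuousAt.clog continuousAt_id hs2)
    · refine tendsto_finsetSum _ fun x hx => ?_
      exact continuousAt_const.mul (ContinuousAt.clog (by fun_prop) (hne2 x hx))
  have hd1 : ∀ᶠ w in 𝓝 (2 : ℂ), exp (dd w) = 1 := by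
    filter_upwards [hslit, hQ2, hl2] with w h1 h2 h3
    have h9 : w ≠ 0 := slitPlane_ne_zero h1.1
    have h10 : ∀ x ∈ Z, w - (x : ℂ) ≠ 0 := fun x hx => slitPlane_ne_zero (h1.2 x hx)
    rw [hdd]
    simp only
    rw [Complex.exp_sub, Complex.exp_add _ (l w), Complex.exp_add (m * log w), h3, h2,
      Complex.exp_int_mul, Complex.exp_log h9, Complex.exp_sum]
    have h11 : ∏ x ∈ Z, exp ((n x : ℂ) * log (w - x)) = ∏ x ∈ Z, (w - (x : ℂ)) ^ (n x) :=
      Finset.prod_congr rfl fun x hx => by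
        rw [Complex.exp_int_mul, Complex.exp_log (h10 x hx)]
    rw [h11]
    have h12 : ∏ x ∈ Z, (w - (x : ℂ)) ^ (n x) ≠ 0 :=
      Finset.prod_ne_zero_iff.2 fun x hx => zpow_ne_zero _ (h10 x hx)
    have h13 : w ^ m ≠ 0 := zpow_ne_zero _ h9
    have h14 : Q w ≠ 0 := by
      rw [← h3]
      exact Complex.exp_ne_zero _
    exact div_self (mul_ne_zero (mul_ne_zero h13 h12) h14)
  have hconst := const_of_exp hdc hd1
  set κ : ℂ := dd 2 with hκ
  have hκ1 : exp κ = 1 := hd1.self_of_nhds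
  set l' : ℂ → ℂ := fun w => l w + κ with hl'
  have hl'a : ∀ x ∈ Icc (0 : ℝ) 2, AnalyticAt ℂ l' (x : ℂ) := fun x hx =>
    (hla x hx).add analyticAt_const
  -- the two equations
  have hE1 : ∀ᶠ w in 𝓝 (2 : ℂ), g w = m * log w + (∑ x ∈ Z, (n x : ℂ) * log (w - x)) + l' w := by
    filter_upwards [hconst] with w hw
    rw [hdd] at hw
    simp only at hw
    rw [hl']
    simp only
    linear_combination hw
  have hcj : Tendsto (fun w : ℂ => conj w) (𝓝 (2 : ℂ)) (𝓝 (2 : ℂ)) := by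
    have h1 : Continuous fun w : ℂ => conj w := Complex.continuous_conj
    have h2 := h1.tendsto (2 : ℂ)
    have h3 : conj (2 : ℂ) = 2 := by
      have := Complex.conj_ofReal 2
      simpa using this
    rwa [h3] at h2
  have hlc : ∀ z : ℂ, z ∈ slitPlane → conj (log (conj z)) = log z := by
    intro z hz
    rw [Complex.log_conj z (Complex.slitPlane_arg_ne_pi hz), Complex.conj_conj]
  have hE2 : ∀ᶠ w in 𝓝 (2 : ℂ), ser lam c w - I * ser lam d w =
      m * log w + (∑ x ∈ Z, (n x : ℂ) * log (w - x)) + st l' w := by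
    filter_upwards [hcj.eventually hE1, hslit] with w h1 h2
    have h3 := congrArg conj h1
    rw [hg] at h3
    simp only [map_add, map_mul, map_sum, ser_conj, Complex.conj_I, map_intCast] at h3
    rw [hlc w h2.1] at h3
    have h4 : ∑ x ∈ Z, (n x : ℂ) * conj (log (conj w - (x : ℂ))) =
        ∑ x ∈ Z, (n x : ℂ) * log (w - x) := by
      refine Finset.sum_congr rfl fun x hx => ?_
      have h5 : conj w - (x : ℂ) = conj (w - (x : ℂ)) := by
        rw [map_sub, Complex.conj_ofReal]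
      rw [h5, hlc _ (h2.2 x hx)]
    rw [h4] at h3
    unfold st
    linear_combination h3
  obtain ⟨δ, hδ, hball⟩ := Metric.eventually_nhds_iff.1 (hE1.and hE2)
  -- the two functions
  set lp : ℂ → ℂ := fun w => (l' w + st l' w) / 2 with hlp
  set lm : ℂ → ℂ := fun w => (l' w - st l' w) / (2 * I) with hlm
  have hlpa : ∀ x ∈ Icc (0 : ℝ) 2, AnalyticAt ℂ lp (x : ℂ) := fun x hx =>
    ((hl'a x hx).add (st_analytic (hl'a x hx))).div_const
  have hlma : ∀ x ∈ Icc (0 : ℝ) 2, AnalyticAt ℂ lm (x : ℂ) := fun x hx =>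
    ((hl'a x hx).sub (st_analytic (hl'a x hx))).div_const
  obtain ⟨η₁, B₁, hη₁, hB₁⟩ := bel_of n m hZ hlpa hδ
  obtain ⟨η₂, B₂, hη₂, hB₂⟩ := bel_of (Z := ∅) n 0 (by simp) hlma hδ
  have hdist : ∀ w : ℂ, w.re = 2 → -δ < w.im → w.im < 0 → dist w 2 < δ := by
    intro w h6 h7 h8
    rw [Complex.dist_eq]
    have e1 : w - 2 = ((w.im : ℝ) : ℂ) * I := by
      apply Complex.ext <;> simp [h6]
    rw [e1, norm_mul, Complex.norm_I, mul_one, Complex.norm_real, Real.norm_eq_abs,
      abs_of_neg h8]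
    linarith
  have hI : (2 * I : ℂ) ≠ 0 := mul_ne_zero two_ne_zero Complex.I_ne_zero
  obtain ⟨C₁, T₁, hC₁, hT₁, h1⟩ := refc lam (fun i => -c i) (sdata_of D.lam_pos D.sumc) γ hγ m _ _
    η₁ B₁ hB₁ (by
      intro w h6 h7 h8
      rw [ser_neg, neg_neg]
      obtain ⟨e1, e2⟩ := hball (hdist w h6 (by linarith) h8)
      have e3 : ser lam c w = ((ser lam c w + I * ser lam d w) +
        (ser lam c w - I * ser lam d w)) / 2 := by ring
      have e1' : ser lam c w + I * ser lam d w =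
        m * log w + (∑ x ∈ Z, (n x : ℂ) * log (w - x)) + l' w := e1
      rw [e3, e1', e2, hlp]
      simp only
      ring)
  obtain ⟨C₂, T₂, hC₂, hT₂, h2⟩ := refc lam (fun i => -d i) (sdata_of D.lam_pos D.sumd) γ hγ 0 _ _
    η₂ B₂ hB₂ (by
      intro w h6 h7 h8
      rw [ser_neg, neg_neg]
      obtain ⟨e1, e2⟩ := hball (hdist w h6 (by linarith) h8)
      have e3 : ser lam d w = ((ser lam c w + I * ser lam d w) -
        (ser lam c w - I * ser lam d w)) / (2 * I) := by
        field_simp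
        ring
      have e1' : ser lam c w + I * ser lam d w =
        m * log w + (∑ x ∈ Z, (n x : ℂ) * log (w - x)) + l' w := e1
      rw [e3, e1', e2, hlm]
      simp only [Int.cast_zero, zero_mul, Finset.sum_empty]
      ring)
  simp only [Int.cast_zero, zero_mul, Finset.sum_empty, zero_add, sub_zero] at h2
  rw [Lam_eq] at h1
  set r₁ : ℂ := (∑ x ∈ Z, (n x : ℂ) * (Real.log x - Real.pi * I)) + lp 0 with hr₁
  refine ⟨r₁ + I * lm 0, C₁ + C₂, max T₁ T₂, ?_, by positivity, hT₁.trans (le_max_left _ _),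
    fun T hT => ?_⟩
  · have e1 : lp 0 + I * lm 0 = l 0 + κ := by
      rw [hlp, hlm, hl']
      simp only
      field_simp
      ring
    have e2 : r₁ + I * lm 0 = (∑ x ∈ Z, (n x : ℂ) * (Real.log x - Real.pi * I)) + (l 0 + κ) := by
      rw [← e1, hr₁]
      ring
    rw [e2, Complex.exp_add, Complex.exp_add, hκ1, mul_one, hl0, htr, Complex.exp_sum]
    congr 1
    refine Finset.prod_congr rfl fun x hx => ?_
    have hx0 := (hZ x hx).1
    rw [Complex.exp_int_mul, Complex.exp_sub, Complex.exp_pi_mul_I, ← Complex.ofReal_exp,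
      Real.exp_log hx0]
    congr 1
    ring
  · have e1 := h1 T ((le_max_left _ _).trans hT)
    have e2 := h2 T ((le_max_right _ _).trans hT)
    rw [cmean_neg] at e1 e2
    have e3 : -(cmean lam c γ T + I * cmean lam d γ T) - (m * (Real.log T - Lam γ) -
        (r₁ + I * lm 0)) = (-cmean lam c γ T - (m * Real.log T - m * Lam γ - r₁)) +
        I * (-cmean lam d γ T - (- lm 0)) := by ring
    rw [e3, add_div]
    refine (norm_add_le _ _).trans (add_le_add e1 ?_)
    rw [norm_mul, Complex.norm_I, one_mul]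
    refine le_trans (le_of_eq ?_) e2
    congr 1
    ring

end Pool.Agent.Run7.h453.CX
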