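import Pool.Agent.Run7.h453.CX.Fac

/-! The logarithm of a function without zeros near a segment. -/

set_option autoImplicit false

namespace Pool.Agent.Run7.h453.CX

open Complex MeasureTheory Filter Topology Set

/-- a thin rectangle around `[0, 2]` -/
theorem rect' {l : ℂ → ℂ} (hl : ∀ x ∈ Icc (0 : ℝ) 2, AnalyticAt ℂ l (x : ℂ)) :
    ∃ δ > 0, ∃ M : ℝ, 0 ≤ M ∧ ∀ w : ℂ, 0 ≤ w.re → w.re ≤ 2 → |w.im| ≤ δ →
      ‖l w - l 0‖ ≤ M * ‖w‖ ∧ DifferentiableAt ℂ l w := by
  set Kc : Set ℂ := (fun x : ℝ => (x : ℂ)) '' Icc 0 2 with hKc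
  have hKcc : IsCompact Kc := isCompact_Icc.image (by fun_prop)
  set U : Set ℂ := {w | AnalyticAt ℂ l w} with hU
  have hUo : IsOpen U := isOpen_analyticAt ℂ l
  have hKU : Kc ⊆ U := by
    rintro _ ⟨x, hx, rfl⟩
    exact hl x hx
  obtain ⟨δ₂, hδ₂, hsub⟩ := hKcc.exists_cthickening_subset_open hUo hKU
  have hcc : IsCompact (Metric.cthickening δ₂ Kc) := hKcc.cthickening
  have h0U : AnalyticAt ℂ l 0 := by
    have h1 := hl 0 ⟨le_rfl, by norm_num⟩
    rwa [Complex.ofReal_zero] at h1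
  have hlc : ContinuousOn (dslope l 0) (Metric.cthickening δ₂ Kc) := by
    intro w hw
    have h3 := hsub hw
    by_cases h : w = 0
    · rw [h]
      exact (continuousAt_dslope_same.2 h0U.differentiableAt).continuousWithinAt
    · have h4 : AnalyticAt ℂ l w := h3
      exact ((continuousAt_dslope_of_ne h).2 h4.continuousAt).continuousWithinAt
  obtain ⟨M, hM⟩ := hcc.exists_bound_of_continuousOn hlc
  have hmem : ∀ w : ℂ, 0 ≤ w.re → w.re ≤ 2 → |w.im| ≤ δ₂ → w ∈ Metric.cthickening δ₂ Kc := by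
    intro w h3 h4 h5
    refine Metric.mem_cthickening_of_dist_le w (w.re : ℂ) δ₂ Kc ⟨w.re, ⟨h3, h4⟩, rfl⟩ ?_
    rw [Complex.dist_eq]
    have : w - (w.re : ℂ) = (w.im : ℂ) * I := by
      apply Complex.ext <;> simp
    rw [this, norm_mul, Complex.norm_I, mul_one, Complex.norm_real, Real.norm_eq_abs]
    exact h5
  refine ⟨δ₂, hδ₂, |M|, abs_nonneg _, fun w h3 h4 h5 => ⟨?_, ?_⟩⟩
  · have h6 := hM w (hmem w h3 h4 h5)
    have h7 := sub_smul_dslope l 0 w
    beta_reduce at h7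
    rw [← h7, sub_zero, smul_eq_mul, norm_mul, mul_comm]
    exact mul_le_mul_of_nonneg_right (h6.trans (le_abs_self M)) (norm_nonneg _)
  · have h6 : AnalyticAt ℂ l w := hsub (hmem w h3 h4 h5)
    exact h6.differentiableAt

theorem slit_of_exp {z : ℂ} (h : |z.im| < 1) : exp z ∈ slitPlane := by
  left
  rw [Complex.exp_re]
  refine mul_pos (Real.exp_pos _) (Real.cos_pos_of_mem_Ioo ?_)
  have h3 := Real.pi_gt_three
  rw [abs_lt] at h
  exact ⟨by linarith [h.1], by linarith [h.2]⟩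

/-- a branch of the logarithm near the segment -/
theorem logQ {Q : ℂ → ℂ} (hQa : ∀ x ∈ Icc (0 : ℝ) 2, AnalyticAt ℂ Q (x : ℂ))
    (hQ0 : ∀ x ∈ Icc (0 : ℝ) 2, Q (x : ℂ) ≠ 0) :
    ∃ l : ℂ → ℂ, (∀ x ∈ Icc (0 : ℝ) 2, AnalyticAt ℂ l (x : ℂ)) ∧
      (∀ᶠ w in 𝓝 (2 : ℂ), exp (l w) = Q w) ∧ exp (l 0) = Q 0 := by
  -- the logarithm on the segment
  set f : ℝ → ℂ := fun t => deriv Q (t : ℂ) / Q (t : ℂ) with hf
  have hfc : ContinuousOn f (Icc 0 2) := by
    intro x hx
    have h1 : ContinuousAt (deriv Q) (x : ℂ) := (hQa x hx).deriv.continuousAt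
    have h2 : ContinuousAt Q (x : ℂ) := (hQa x hx).continuousAt
    have h3 : ContinuousAt (fun t : ℝ => (t : ℂ)) x := by fun_prop
    have h4 : ContinuousAt (fun t : ℝ => deriv Q (t : ℂ)) x :=
      ContinuousAt.comp (g := deriv Q) (f := fun t : ℝ => (t : ℂ)) h1 h3
    have h5 : ContinuousAt (fun t : ℝ => Q (t : ℂ)) x :=
      ContinuousAt.comp (g := Q) (f := fun t : ℝ => (t : ℂ)) h2 h3
    exact (h4.div h5 (hQ0 x hx)).continuousWithinAt
  have h02 : (0 : ℝ) ≤ 2 := by norm_num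
  set f₁ : ℝ → ℂ := Set.IccExtend h02 ((Icc (0 : ℝ) 2).domRestrict f) with hf₁
  have hf₁c : Continuous f₁ := by
    rw [hf₁]
    exact (continuousOn_iff_continuous_domRestrict.1 hfc).Icc_extend'
  have hf₁e : ∀ x ∈ Icc (0 : ℝ) 2, f₁ x = f x := by
    intro x hx
    rw [hf₁, Set.IccExtend_of_mem _ _ hx]
    rfl
  set h : ℝ → ℂ := fun x => log (Q 0) + ∫ t in (0 : ℝ)..x, f₁ t with hh
  have hhd : ∀ x : ℝ, HasDerivAt h (f₁ x) x := by
    intro x
    rw [hh]
    exact (intervalIntegral.integral_hasDerivAt_right (hf₁c.intervalIntegrable _ _)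
      (hf₁c.stronglyMeasurableAtFilter _ _) hf₁c.continuousAt).const_add _
  have hhc : Continuous h := continuous_iff_continuousAt.2 fun x => (hhd x).continuousAt
  have h00 : (0 : ℝ) ∈ Icc (0 : ℝ) 2 := ⟨le_rfl, h02⟩
  have hQ00 : Q 0 ≠ 0 := by
    have := hQ0 0 h00
    rwa [Complex.ofReal_zero] at this
  have hE : ∀ x ∈ Icc (0 : ℝ) 2, Q (x : ℂ) * exp (-h x) = Q ((0 : ℝ) : ℂ) * exp (-h 0) := by
    have hd : ∀ x ∈ Icc (0 : ℝ) 2, HasDerivAt (fun x : ℝ => Q (x : ℂ) * exp (-h x)) 0 x := by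
      intro x hx
      have e1 : HasDerivAt (fun t : ℝ => Q (t : ℂ)) (deriv Q (x : ℂ)) x := by
        have e2 := (hQa x hx).differentiableAt.hasDerivAt
        exact e2.comp_ofReal
      have e3 : HasDerivAt (fun t : ℝ => exp (-h t)) (exp (-h x) * (-(f₁ x))) x :=
        (hhd x).neg.cexp
      have e4 := e1.mul e3
      have e5 : deriv Q (x : ℂ) * exp (-h x) + Q (x : ℂ) * (exp (-h x) * -f₁ x) = 0 := by
        rw [hf₁e x hx, hf]
        have := hQ0 x hx
        field_simp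
        ring
      rw [e5] at e4
      exact e4
    intro x hx
    refine constant_of_has_deriv_right_zero (a := 0) (b := 2) (f := fun x : ℝ => Q (x : ℂ) *
      exp (-h x)) (fun y hy => (hd y hy).continuousAt.continuousWithinAt)
      (fun y hy => (hd y ⟨hy.1, hy.2.le⟩).hasDerivWithinAt) x hx
  have hQh : ∀ x ∈ Icc (0 : ℝ) 2, Q (x : ℂ) = exp (h x) := by
    intro x hx
    have e1 := hE x hx
    have e2 : h 0 = log (Q 0) := by
      rw [hh]
      simp
    rw [e2, Complex.ofReal_zero, Complex.exp_neg (log (Q 0)), Complex.exp_log hQ00,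
      mul_inv_cancel₀ hQ00] at e1
    calc Q (x : ℂ) = Q (x : ℂ) * exp (-h x) * exp (h x) := by
          rw [mul_assoc, ← Complex.exp_add, neg_add_cancel, Complex.exp_zero, mul_one]
      _ = exp (h x) := by rw [e1, one_mul]
  -- the polynomial
  obtain ⟨p, hp⟩ := exists_polynomial_near_of_continuousOn 0 2 (fun x => (h x).im)
    (Complex.continuous_im.comp hhc).continuousOn (1 / 2) (by norm_num)
  set Pc : ℂ → ℂ := fun w => I * Polynomial.aeval w p with hPc
  have hPa : ∀ w : ℂ, AnalyticAt ℂ Pc w := by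
    intro w
    rw [hPc]
    have h1 : (fun w : ℂ => Polynomial.aeval w p) =
        fun w : ℂ => Polynomial.aeval w (p.map (algebraMap ℝ ℂ)) := by
      funext w
      rw [Polynomial.aeval_map_algebraMap]
    refine analyticAt_const.mul ?_
    rw [h1]
    exact AnalyticAt.aeval_polynomial analyticAt_id _
  have hPx : ∀ x : ℝ, Pc (x : ℂ) = I * (p.eval x : ℝ) := by
    intro x
    rw [hPc]
    have h1 := Polynomial.aeval_algebraMap_apply ℂ x p
    rw [Complex.coe_algebraMap] at h1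
    show I * Polynomial.aeval (x : ℂ) p = _
    rw [h1]
    rfl
  have hslit : ∀ x ∈ Icc (0 : ℝ) 2, Q (x : ℂ) * exp (-Pc (x : ℂ)) ∈ slitPlane := by
    intro x hx
    rw [hQh x hx, ← Complex.exp_add]
    refine slit_of_exp ?_
    rw [hPx]
    have e1 := hp x hx
    have e2 : (h x + -(I * ((p.eval x : ℝ) : ℂ))).im = (h x).im - p.eval x := by
      simp
      ring
    rw [e2, abs_sub_comm]
    linarith
  refine ⟨fun w => log (Q w * exp (-Pc w)) + Pc w, fun x hx => ?_, ?_, ?_⟩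
  · exact (((hQa x hx).mul (hPa _).neg.cexp).clog (hslit x hx)).add (hPa _)
  · have h22 : (2 : ℝ) ∈ Icc (0 : ℝ) 2 := ⟨h02, le_rfl⟩
    have e1 := hslit 2 h22
    have e2 : AnalyticAt ℂ (fun w => Q w * exp (-Pc w)) ((2 : ℝ) : ℂ) :=
      (hQa 2 h22).mul (hPa _).neg.cexp
    have e3 := e2.continuousAt.eventually (isOpen_slitPlane.mem_nhds e1)
    have e4 : ((2 : ℝ) : ℂ) = 2 := by norm_num
    rw [e4] at e3
    filter_upwards [e3] with w hw
    rw [Complex.exp_add, Complex.exp_log (slitPlane_ne_zero hw), mul_assoc, ← Complex.exp_add,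
      neg_add_cancel, Complex.exp_zero, mul_one]
  · have e1 := hslit 0 h00
    rw [Complex.ofReal_zero] at e1
    rw [Complex.exp_add, Complex.exp_log (slitPlane_ne_zero e1), mul_assoc, ← Complex.exp_add,
      neg_add_cancel, Complex.exp_zero, mul_one]

/-- a continuous function with `exp d = 1` is constant -/
theorem const_of_exp {d : ℂ → ℂ} {z : ℂ} (hd : ContinuousAt d z)
    (h : ∀ᶠ w in 𝓝 z, exp (d w) = 1) : ∀ᶠ w in 𝓝 z, d w = d z := by
  have h0 := h.self_of_nhds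
  have hsmall : ∀ᶠ w in 𝓝 z, ‖d w - d z‖ < 1 := by
    have hc : ContinuousAt (fun _ : ℂ => d z) z := continuousAt_const
    have := (hd.sub hc).norm
    have h3 : ‖d z - d z‖ < 1 := by simp
    exact this.eventually (gt_mem_nhds h3)
  filter_upwards [h, hsmall] with w e1 e2
  have e3 : exp (d w - d z) = 1 := by rw [Complex.exp_sub, e1, h0, div_one]
  obtain ⟨n, hn⟩ := Complex.exp_eq_one_iff.1 e3
  by_cases hn0 : n = 0
  · rw [hn0, Int.cast_zero, zero_mul] at hn
    exact sub_eq_zero.1 hn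
  · exfalso
    rw [hn] at e2
    rw [norm_mul, norm_mul, norm_mul, Complex.norm_I, Complex.norm_real, Real.norm_eq_abs,
      abs_of_pos Real.pi_pos, Complex.norm_intCast] at e2
    have : (1 : ℝ) ≤ |(n : ℝ)| := by
      have := Int.one_le_abs hn0
      exact_mod_cast this
    have h3 := Real.pi_gt_three
    norm_num at e2
    nlinarith

end Pool.Agent.Run7.h453.CX
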